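import Pool.Agent.Y714.KH.All

/-!
# The weak Manin conjecture for all forms of `(ℙ¹)ⁿ // SL₂` over every number field, all `n ≥ 5`,
all big classes

Let `n ≥ 5`. The quotients `V_n = (ℙ¹)ⁿ // SL₂` (for the general linearisations in the central
chambers; for odd `n` the Fano variety given by the democratic linearisation) are smooth varieties
of dimension `n - 3`, isomorphic in codimension one to the blow-up of `ℙⁿ⁻³` in `n - 1` points in
general position. The Picard group over an algebraically closed field has rank `n`, and `S_n`
permutes the `n` points of the line. Let `F` be a number field, let `A = ∏ K_i` be an etale algebra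
of degree `n` over `F` (a product of `r` finite extensions of `F`; we have in mind that one of the
degrees `[K_i : F]` is odd, e.g. `n` odd) and let `V_A` be the form of `V_n` over `F` for which the
`n` points are permuted by the Galois group like the `F`-homomorphisms from `A` to an algebraic
closure of `F`. For `n = 5` the surfaces `V_A` are all quintic del Pezzo surfaces over `F`; for
`A = F × B` the variety `V_A` is, up to small modifications, the blow-up of `ℙⁿ⁻³` in a closed
subscheme `Spec B` of degree `n - 1` in general position.

The classes in `Pic(V_A) ⊗ ℝ` are the vectors `x` with one coordinate for each factor `K_i` (the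
degree in each of the `[K_i : F]` points which belong to `K_i`); the effective cone is given by
`0 ≤ x_i`, `2 x_i ≤ ∑ [K_j : F] x_j`, and the canonical class is `(-2, ..., -2)`.

The `F`-rational points of the open subset of `V_A` given by `n` distinct points of the line are the
classes of the pairs `P` in `A × A` whose `n` conjugates over `F` are different points of the line,
modulo `A^×` and `GL₂(F)` (a conic with a divisor of odd degree is a line). The height `ht d` is
given by the monomials in the brackets `[e, f]` of the conjugates (for each homomorphism `w` from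
`F` to the complex numbers) which have degree `d_i` in each of the points which belong to `K_i`.
-/

set_option autoImplicit false

namespace Pool.Agent.Results.MP_18ea5f_nt.AllDegreesOverNumberFields

open NumberField FractionalIdeal Module
open scoped nonZeroDivisors

section

variable (F : Type) [Field F] [NumberField F] {s : Type} [Fintype s] [DecidableEq s]
  (K : s → Type) [∀ i, Field (K i)] [∀ i, NumberField (K i)] [∀ i, Algebra F (K i)]

/-- The etale algebra `A`, the product of the fields `K i`. -/
abbrev Alg : Type := ∀ i, K i

/-- The homomorphisms from `A` to the complex numbers. -/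
abbrev Emb : Type := Σ i, (K i →+* ℂ)

/-- The degree `n` of `A` over `F`. -/
noncomputable def deg : ℕ := ∑ i, finrank F (K i)

/-- A vector for each homomorphism from `A` to the complex numbers. -/
abbrev Tuple : Type := Emb K → ℂ × ℂ

variable {K}

/-- The restriction to `F` of a homomorphism from `A` to the complex numbers. -/
def restr (e : Emb K) : F →+* ℂ := e.2.comp (algebraMap F (K e.1))

variable (K)

/-- The `n` homomorphisms from `A` to the complex numbers with restriction `w` to `F`: the `n`
points of the line for `w`. -/
def Fibre (w : F →+* ℂ) : Type := {e : Emb K // restr F e = w}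

noncomputable instance (w : F →+* ℂ) : Fintype (Fibre F K w) :=
  @Fintype.ofFinite _ (Subtype.finite)

variable {K}

/-- The bracket of two vectors. -/
def bracket (x y : ℂ × ℂ) : ℂ := x.1 * y.2 - x.2 * y.1

/-- The conjugates of a pair of elements of `A`. -/
def conjugates (P : Alg K × Alg K) : Tuple K := fun e => (e.2 (P.1 e.1), e.2 (P.2 e.1))

variable (K) in
/-- The exponents of the monomials in the brackets `[e, f]`, `e` and `f` in the fibre of `w`, which
have degree `d i` in each of the points which belong to the factor `K i`. -/
def Mon (w : F →+* ℂ) (d : s → ℕ) : Type :=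
  {m : Fibre F K w × Fibre F K w → ℕ // ∀ e : Fibre F K w, ∑ f, (m (e, f) + m (f, e)) = d e.1.1}

/-- The product over `w` of the maxima of the absolute values of the monomials of degree `d` in the
brackets of the vectors in the fibre of `w`. -/
noncomputable def size (d : s → ℕ) (v : Tuple K) : ℝ := ∏ w : F →+* ℂ,
  ⨆ m : Mon F K w d, ∏ q : Fibre F K w × Fibre F K w, ‖bracket (v q.1.1) (v q.2.1)‖ ^ m.1 q

/-- The fractional ideals generated by the two elements, one for each factor `K i`. -/
noncomputable def content (P : Alg K × Alg K) (i : s) : FractionalIdeal (𝓞 (K i))⁰ (K i) :=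
  spanSingleton (𝓞 (K i))⁰ (P.1 i) + spanSingleton (𝓞 (K i))⁰ (P.2 i)

variable (K) in
/-- The elements of `F` in the algebra `A`. -/
def scalar (a : F) : Alg K := fun i => algebraMap F (K i) a

variable {F} in
/-- The action of a matrix with entries in `F` on pairs. -/
def act (a b c d : F) (P : Alg K × Alg K) : Alg K × Alg K :=
  (scalar F K a * P.1 + scalar F K b * P.2, scalar F K c * P.1 + scalar F K d * P.2)

/-- `size / ∏ N(content_i) ^ d_i` for a pair. -/
noncomputable def pairHeight (d : s → ℕ) (P : Alg K × Alg K) : ℝ :=
  size F d (conjugates P) / ∏ i, ((absNorm (content P i) : ℚ) : ℝ) ^ d i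

/-- The height of the point given by `P`, for the class `d`: the infimum of
`size / ∏ N(content_i) ^ d_i` over all pairs `g P`, where `g` is in `GL₂(F)`. -/
noncomputable def ht (d : s → ℕ) (P : Alg K × Alg K) : ℝ :=
  sInf {r : ℝ | ∃ a b c e : F, a * e - b * c ≠ 0 ∧ r = pairHeight F d (act a b c e P)}

/-- The `n` conjugates of the pair over `F` are different points of the line. -/
def Distinct (P : Alg K × Alg K) : Prop := ∀ e f : Emb K, e ≠ f → restr F e = restr F f →
  bracket (conjugates P e) (conjugates P f) ≠ 0

/-- The pairs give the same point: `P' = x g P` with `x` in `A^×` and `g` in `GL₂(F)`. -/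
def Equivalent (P P' : Alg K × Alg K) : Prop := ∃ (x : Alg K) (a b c d : F), (∀ i, x i ≠ 0) ∧
  a * d - b * c ≠ 0 ∧ P' = (x * (act a b c d P).1, x * (act a b c d P).2)

variable (K) in
/-- The points of height at most `B`, as equivalence classes of pairs. -/
def points (d : s → ℕ) (B : ℝ) : Set (Set (Alg K × Alg K)) :=
  {C | ∃ P, Distinct F P ∧ C = {P' | Equivalent F P P'} ∧ ht F d P ≤ B}

variable (K) in
/-- The integral class `e` is big. -/
def Big (e : s → ℕ) : Prop := ∀ i, 0 < e i ∧ 2 * e i < ∑ j, finrank F (K j) * e j

variable (K) in
/-- The real class `x` is (pseudo-)effective. -/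
def Eff (x : s → ℝ) : Prop := ∀ i, 0 ≤ x i ∧ 2 * x i ≤ ∑ j, (finrank F (K j) : ℝ) * x j

variable (K) in
/-- The Fujita invariant of the class `e`; the canonical class is `(-2, ..., -2)`. -/
noncomputable def fuj (e : s → ℕ) : ℝ := sInf {t : ℝ | Eff F K fun i => t * e i - 2}

end

/-- **The weak Manin conjecture, with the power `r - 1` of the logarithm, for all big classes on
the forms `V_A` of `(ℙ¹)ⁿ // SL₂` over a number field `F`, `n ≥ 5` even or odd.** -/
theorem result (F : Type) [Field F] [NumberField F] {s : Type} [Fintype s] [DecidableEq s]
    (K : s → Type) [∀ i, Field (K i)] [∀ i, NumberField (K i)] [∀ i, Algebra F (K i)]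
    (hn : 5 ≤ deg F K) (e : s → ℕ) (he : Big F K e) :
    ∃ C : ℝ, ∀ T : ℝ, 1 ≤ T →
      (points F K (fun i => 2 * e i) (T ^ 2)).Finite ∧
      ((points F K (fun i => 2 * e i) (T ^ 2)).ncard : ℝ) ≤
        C * T ^ fuj F K e * (1 + Real.log T) ^ (Fintype.card s - 1) :=
  Y714.KH.final F K hn e (fun i => (he i).1) (fun i => (he i).2)

end Pool.Agent.Results.MP_18ea5f_nt.AllDegreesOverNumberFields
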