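import Pool.Agent.Y714.KI.All

/-!
# The weak Manin conjecture for `n` points on the line over number fields, all big classes

Let `F` be a number field and `n = N + 3 ≥ 5`. The varieties `X` isomorphic in codimension one to
`V_n = (ℙ¹)ⁿ // SL₂` (for example the blow-up of `ℙᴺ` in `N + 2` rational points in general
position) contain `M_{0,n}`, the space of `n` distinct points `∞, 0, 1, t_1, ..., t_N` of the line,
as an open subset. The classes of divisors are the vectors `x` with `n` coordinates, the cone of
effective classes is generated by the classes of the brackets (`0 ≤ x_i`, `2 x_i ≤ ∑ x_j`), and the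
canonical class is `(-2, ..., -2)`. The sections of the class `2e` are spanned by the monomials of
degree `2e_i` in the point `i` in the brackets, and `ht (2e)` is the Weil height (relative to `F`)
given by these monomials.
-/

set_option autoImplicit false

namespace Pool.Agent.Results.MP_18ea5f_nt.PointsOnTheLineNumberFields

open Finset

/-- the labels of the `N + 3` points `∞, 0, 1, t_1, ..., t_N` -/
abbrev Ix (N : ℕ) : Type := Fin 3 ⊕ Fin N

/-- homogeneous coordinates of the points `∞, 0, 1, t_1, ..., t_N` -/
def pt {F : Type} [Field F] {N : ℕ} (t : Fin N → F) : Ix N → F × F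
  | Sum.inl i => ![(1, 0), (0, 1), (1, 1)] i
  | Sum.inr j => (t j, 1)

/-- the brackets of the configuration -/
def br {F : Type} [Field F] {N : ℕ} (t : Fin N → F) (i j : Ix N) : F :=
  (pt t i).1 * (pt t j).2 - (pt t i).2 * (pt t j).1

/-- the exponents of the monomials in the brackets which have degree `d i` in the point `i` -/
def Mon {N : ℕ} (d : Ix N → ℕ) : Type :=
  {m : Ix N × Ix N → ℕ // ∀ i, ∑ j, (m (i, j) + m (j, i)) = d i}

/-- the Weil height relative to `F` defined by all monomials of multidegree `d` in the brackets -/
noncomputable def ht {F : Type} [Field F] [NumberField F] {N : ℕ} (d : Ix N → ℕ)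
    (t : Fin N → F) : ℝ :=
  Height.mulHeight fun m : Mon d => ∏ q : Ix N × Ix N, br t q.1 q.2 ^ m.1 q

/-- the configurations of distinct points, i.e. the `F`-rational points of `M_{0,N+3}` -/
def U (F : Type) [Field F] (N : ℕ) : Set (Fin N → F) :=
  {t | Function.Injective t ∧ ∀ j, t j ≠ 0 ∧ t j ≠ 1}

/-- the class `e` is big: it lies in the interior of the cone generated by the brackets -/
def Big {N : ℕ} (e : Ix N → ℕ) : Prop := ∀ i, 0 < e i ∧ 2 * e i < ∑ j, e j

/-- the real class `x` is in the cone generated by the classes of the brackets -/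
def Eff {N : ℕ} (x : Ix N → ℝ) : Prop := ∀ i, 0 ≤ x i ∧ 2 * x i ≤ ∑ j, x j

/-- the Fujita invariant of the class `e`; the canonical class is `(-2, ..., -2)` -/
noncomputable def fuj {N : ℕ} (e : Ix N → ℕ) : ℝ := sInf {s : ℝ | Eff fun i => s * e i - 2}

/-- **The weak Manin conjecture for `n = N + 3 ≥ 5` points on the line over a number field `F`, for
all big classes and Weil heights.** -/
theorem result (F : Type) [Field F] [NumberField F] (N : ℕ) (hN : 2 ≤ N) (e : Ix N → ℕ)
    (he : Big e) :
    ∃ C : ℝ, ∀ T : ℝ, 1 ≤ T →
      {t ∈ U F N | ht (fun i => 2 * e i) t ≤ T ^ 2}.Finite ∧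
      ({t ∈ U F N | ht (fun i => 2 * e i) t ≤ T ^ 2}.ncard : ℝ) ≤
        C * T ^ fuj e * (1 + Real.log T) ^ (N + 2) :=
  Y714.KI.final F N hN e (fun i => (he i).1) (fun i => (he i).2)

end Pool.Agent.Results.MP_18ea5f_nt.PointsOnTheLineNumberFields
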