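import Mathlib
import Pool.Agent.Y714.TC.A

/-!
The weak form of the conjecture of Manin for the blow-up `X` of the projective space along the
twisted cubic (a Fano threefold of Picard number 2) over the rational numbers, for all big and nef
line bundles `L`, and the exact order of magnitude `T log T` for the anticanonical height.

* `X` is the subvariety of `ℙ³ × ℙ²` given by the two equations of type `(1,1)` in `Inc x y`:
  `x₀ y₀ + x₁ y₁ + x₂ y₂ = 0` and `x₁ y₀ + x₂ y₁ + x₃ y₂ = 0`. The first part of the theorem says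
  that it is smooth of dimension 3: the gradients of the two equations are linearly independent at
  every complex point (the other components of the gradients are listed in the statement).
* `hes x` are the three quadratic forms which define the twisted cubic; the open set `U` is given by
  `hes x ≠ 0`, it is the complement of the exceptional divisor `E` of the blow-up.
* `Rep v`: `v` is the normalised primitive integer representative of a rational point of a
  projective space (greatest common divisor of the coordinates `1`, first nonzero coordinate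
  positive); `ht v` is its height, the maximum of the absolute values of the coordinates.
* The nef cone is generated by the classes `(1,0)` and `(0,1)` of the hyperplanes of the two factors;
  `L = (l 0, l 1)` is big and nef if and only if `l 0 > 0` and `l 1 ≥ 0`. The pseudo-effective cone
  is generated by `(0,1)` and `E = (2,-1)`, and `K = (-2,-1)`; `fuj l` is the infimum of all `t` such
  that `t L + K` is in this cone.

The theorem: `U` is not empty; for all big and nef `L` the number of rational points of `U` with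
`H(x) ^ l 0 * H(y) ^ l 1 ≤ T` is finite and at most `C T ^ (fuj l) (1 + log T)`; for `L = -K = (2,1)`
it is between `c T log T` and `C T log T` for large `T`, as predicted by the conjecture of Manin.

The upper bound for all line bundles and the counting of the points over a given point of the plane
are in the library files `H548/TC` among the starting files, which are not used in any result there;
the lower bound is new.
-/

namespace Pool.Agent.Results.MP_18ea5f_nt.TwistedCubic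

open Pool.Agent.H548.TC
open Pool.Agent.H548.WM (ht Rep)

theorem result :
    (∀ (x : Fin 4 → ℂ) (y : Fin 3 → ℂ), x ≠ 0 → y ≠ 0 → Inc x y → ∀ s t : ℂ,
      (∀ i : Fin 4, s * (![y 0, y 1, y 2, 0] : Fin 4 → ℂ) i + t * (![0, y 0, y 1, y 2] : Fin 4 → ℂ) i = 0) →
      (∀ i : Fin 3, s * (![x 0, x 1, x 2] : Fin 3 → ℂ) i + t * (![x 1, x 2, x 3] : Fin 3 → ℂ) i = 0) →
      s = 0 ∧ t = 0) ∧
    (∃ (x : Fin 4 → ℤ) (y : Fin 3 → ℤ), Rep x ∧ Rep y ∧ Inc x y ∧ hes x ≠ 0) ∧
    (∀ l : Fin 2 → ℝ, 0 < l 0 → 0 ≤ l 1 → ∃ C : ℝ, ∀ T : ℝ, 1 ≤ T →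
      {t : (Fin 4 → ℤ) × (Fin 3 → ℤ) | Rep t.1 ∧ Rep t.2 ∧ Inc t.1 t.2 ∧ hes t.1 ≠ 0 ∧
        (ht t.1 : ℝ) ^ l 0 * (ht t.2 : ℝ) ^ l 1 ≤ T}.Finite ∧
      ({t : (Fin 4 → ℤ) × (Fin 3 → ℤ) | Rep t.1 ∧ Rep t.2 ∧ Inc t.1 t.2 ∧ hes t.1 ≠ 0 ∧
        (ht t.1 : ℝ) ^ l 0 * (ht t.2 : ℝ) ^ l 1 ≤ T}.ncard : ℝ) ≤
        C * T ^ fuj l * (1 + Real.log T)) ∧
    ∃ c C T₀ : ℝ, 0 < c ∧ ∀ T : ℝ, T₀ ≤ T →
      c * (T * Real.log T) ≤ ({t : (Fin 4 → ℤ) × (Fin 3 → ℤ) | Rep t.1 ∧ Rep t.2 ∧ Inc t.1 t.2 ∧ hes t.1 ≠ 0 ∧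
        (ht t.1 : ℝ) ^ 2 * (ht t.2 : ℝ) ≤ T}.ncard : ℝ) ∧
      ({t : (Fin 4 → ℤ) × (Fin 3 → ℤ) | Rep t.1 ∧ Rep t.2 ∧ Inc t.1 t.2 ∧ hes t.1 ≠ 0 ∧
        (ht t.1 : ℝ) ^ 2 * (ht t.2 : ℝ) ≤ T}.ncard : ℝ) ≤ C * (T * Real.log T) := by
  refine ⟨fun x y hx hy h s t h1 h2 => Pool.Agent.Y714.TC.smooth x y hx hy h s t h1 h2, nonempty,
    fun l h0 h1 => upper l h0 h1, ?_⟩
  obtain ⟨c, T₀, hc, hT₀, hlow⟩ := Pool.Agent.Y714.TC.lower
  obtain ⟨C, hC⟩ := upper ![2, 1] (by norm_num) (by norm_num)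
  have hf : fuj ![2, 1] = 1 := by
    rw [fuj_eq _ (by norm_num) (by norm_num)]
    norm_num
  have hset : ∀ T : ℝ, {t : (Fin 4 → ℤ) × (Fin 3 → ℤ) | Rep t.1 ∧ Rep t.2 ∧ Inc t.1 t.2 ∧ hes t.1 ≠ 0 ∧
      (ht t.1 : ℝ) ^ (![2, 1] : Fin 2 → ℝ) 0 * (ht t.2 : ℝ) ^ (![2, 1] : Fin 2 → ℝ) 1 ≤ T} =
      {t : (Fin 4 → ℤ) × (Fin 3 → ℤ) | Rep t.1 ∧ Rep t.2 ∧ Inc t.1 t.2 ∧ hes t.1 ≠ 0 ∧
        (ht t.1 : ℝ) ^ 2 * (ht t.2 : ℝ) ≤ T} := by
    intro T
    have e : ∀ a b : ℝ, a ^ (![2, 1] : Fin 2 → ℝ) 0 * b ^ (![2, 1] : Fin 2 → ℝ) 1 = a ^ 2 * b := by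
      intro a b
      simp
    simp only [e]
  refine ⟨c, 2 * |C|, max T₀ 3, hc, fun T hT => ?_⟩
  have hT0 : T₀ ≤ T := (le_max_left _ _).trans hT
  have hT3 : 3 ≤ T := (le_max_right _ _).trans hT
  obtain ⟨hfin, hcard⟩ := hC T (by linarith)
  rw [hset] at hfin hcard
  have hlog : 1 ≤ Real.log T := by
    rw [Real.le_log_iff_exp_le (by linarith)]
    have := Real.exp_one_lt_d9
    linarith
  constructor
  · obtain ⟨P, hP, hPc⟩ := hlow T hT0
    refine hPc.trans ?_
    have h1 : ((P : Set ((Fin 4 → ℤ) × (Fin 3 → ℤ)))).ncard ≤ {t : (Fin 4 → ℤ) × (Fin 3 → ℤ) | Rep t.1 ∧ Rep t.2 ∧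
        Inc t.1 t.2 ∧ hes t.1 ≠ 0 ∧ (ht t.1 : ℝ) ^ 2 * (ht t.2 : ℝ) ≤ T}.ncard :=
      Set.ncard_le_ncard (fun t ht' => hP t ht') hfin
    rw [Set.ncard_coe_finset] at h1
    exact_mod_cast h1
  · refine hcard.trans ?_
    rw [hf, Real.rpow_one]
    have h1 : C * T ≤ |C| * T := mul_le_mul_of_nonneg_right (le_abs_self C) (by linarith)
    calc C * T * (1 + Real.log T) ≤ |C| * T * (2 * Real.log T) :=
          mul_le_mul h1 (by linarith) (by linarith) (by positivity)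
      _ = _ := by ring

end Pool.Agent.Results.MP_18ea5f_nt.TwistedCubic
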